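import Pool.Agent.D0H81.YN.Stm
import Pool.Agent.Q73.AD.YZ4
import Pool.Agent.Q73.AD.TG4
import Pool.Agent.Q73.AD.TG2

/-!
# GS: the nodal length on a closed surface, from SQ, G1, G2
-/

set_option autoImplicit false
open MeasureTheory Filter Topology Complex Metric
open scoped ContDiff ENNReal NNReal

namespace Pool.Agent.D0H65.YN

open Pool.Agent.Q73.NL (dx dy lap)
open Pool.Agent.Q73.AD
open Pool.Agent.Q73.AD.TG4
open Pool.Agent.D0H81.YN

universe u v

/-- the nodal length in a good piece -/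
theorem piece (hSQ : S_SQ) (M : Type u) [MetricSpace M] [MeasurableSpace M] [BorelSpace M]
    (φ : ℂ → M) (ρ : ℂ → ℝ) (V : Set ℂ) (z : ℂ) (R c L δ : ℝ) (hG : Good φ ρ V z R c L δ)
    (hρ : ∀ w ∈ V, 0 ≤ ρ w) :
    ∃ r₀ : ℝ, 0 < r₀ ∧ ∀ Cg : ℝ, 0 < Cg → ∃ A : ℝ, 0 < A ∧
    ∀ (lam : ℝ) (f : M → ℝ), 0 ≤ lam →
      ContDiffOn ℝ ∞ (fun w => f (φ w)) V →
      (∀ w ∈ V, lap (fun w => f (φ w)) w + lam * ρ w * f (φ w) = 0) →
      BddAbove ((fun x => |f x|) '' Set.univ) → (∀ x r, 0 < r → 0 < sn f (ball x r)) →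
      (∀ x : M, sn f Set.univ ≤ Real.exp (Cg * (1 + Real.sqrt lam)) * sn f (ball x r₀)) →
      (μH[1] : Measure M) (φ '' {w | w ∈ closedBall z R ∧ f (φ w) = 0}) ≤
        ENNReal.ofReal (A * Real.sqrt (1 + lam)) := by
  classical
  obtain ⟨s₁, hs₁, H6⟩ := hSQ
  have hc := hG.c_pos
  have hc1 := hG.c_le
  have hR := hG.R_pos
  have hR1 := hG.R_le
  have hδ := hG.δ_pos
  set s : ℝ := min s₁ (min (R / 100) (1 / 32)) with hsdef
  have hs0 : 0 < s := lt_min hs₁ (lt_min (by positivity) (by norm_num))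
  have hss₁ : s ≤ s₁ := min_le_left _ _
  have hsR : 100 * s ≤ R := by
    have : s ≤ R / 100 := (min_le_right _ _).trans (min_le_left _ _)
    linarith
  have hs32 : s ≤ 1 / 32 := (min_le_right _ _).trans (min_le_right _ _)
  refine ⟨min δ (c * (2 * s)), by positivity, fun Cg hCg => ?_⟩
  obtain ⟨A, lam₀, hA, hlam₀, H⟩ := H6 s L (2 * Cg / s) hs0 hss₁ hs32 hG.L_ge (by positivity)
  set Q : ℕ := ⌈R / (2 * s) + 1⌉₊ with hQ
  set Λ : ℝ := max 1 lam₀ with hΛ
  have hΛ1 : 1 ≤ Λ := le_max_left _ _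
  have hΛ0 : 0 < Λ := by linarith
  have hsΛ : 0 < √Λ := Real.sqrt_pos.2 hΛ0
  refine ⟨c⁻¹ * ((2 * Q + 1) ^ 2 * (A * √Λ)), by positivity, ?_⟩
  intro lam f hlam hsm heq hbdd hpos hgrow
  set lam' : ℝ := max lam Λ with hlam'
  have hl1 : Λ ≤ lam' := le_max_right _ _
  have hl2 : lam ≤ lam' := le_max_left _ _
  have hl0 : 1 ≤ lam' := hΛ1.trans hl1
  have hl00 : 0 < lam' := by linarith
  have hl3 : lam₀ ≤ lam' := (le_max_right _ _).trans hl1
  have hsq1 : √lam' ≤ √Λ * √(1 + lam) := by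
    rw [← Real.sqrt_mul hΛ0.le]
    apply Real.sqrt_le_sqrt
    refine max_le ?_ ?_
    · nlinarith
    · nlinarith
  set sl : ℝ := Real.sqrt lam' with hsl
  have hsl1 : 1 ≤ sl := Real.one_le_sqrt.2 hl0
  have hsl0 : 0 < sl := by linarith
  have hsl2 : √lam ≤ sl := Real.sqrt_le_sqrt hl2
  set k : ℝ := lam / lam' with hk
  have hk0 : 0 ≤ k := div_nonneg hlam hl00.le
  have hk1 : k ≤ 1 := (div_le_one hl00).2 hl2
  -- boundedness
  obtain ⟨Bf, hBf⟩ := hbdd
  have hBf' : ∀ x, |f x| ≤ Bf := fun x => hBf ⟨x, Set.mem_univ _, rfl⟩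
  have hVn : ∀ y ∈ V, V ∈ 𝓝 y := fun y hy => hG.opn.mem_nhds hy
  -- a disc contains the preimage of a small metric ball
  have hsmall : ∀ w ∈ closedBall z (3 * R / 2), ∀ t, 0 < t →
      sn f (ball (φ w) (min δ (c * t))) ≤ sn (fun w => f (φ w)) (closedBall w t) := by
    intro w hw t ht
    refine sn_le2 (sn_nonneg2 _ _) fun x hx => ?_
    have hx1 : x ∈ ball (φ w) δ := ball_subset_ball (min_le_left _ _) hx
    obtain ⟨w', hw', rfl⟩ := hG.surj w hw hx1
    have h3 := (hG.lip w' hw' w (closedBall_subset_closedBall (by linarith) hw)).1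
    have h4 : dist (φ w') (φ w) < c * t := lt_of_lt_of_le hx (min_le_right _ _)
    have h5 : ‖w' - w‖ < t := lt_of_mul_lt_mul_left (h3.trans_lt h4) hc.le
    have h6 : w' ∈ closedBall w t := by
      rw [mem_closedBall, dist_eq_norm]
      exact h5.le
    exact le_sn2 (f := fun w => f (φ w)) (fun w' _ => hBf' (φ w')) h6
  have hposd : ∀ w ∈ closedBall z (3 * R / 2), ∀ t, 0 < t →
      0 < sn (fun w => f (φ w)) (closedBall w t) := by
    intro w hw t ht
    exact (hpos (φ w) _ (lt_min hδ (by positivity))).trans_le (hsmall w hw t ht)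
  set IS : Finset (ℤ × ℤ) := Finset.Icc (-(Q : ℤ)) Q ×ˢ Finset.Icc (-(Q : ℤ)) Q with hIS
  have hIScard : (IS.card : ℝ) = (2 * Q + 1) ^ 2 := by
    rw [hIS, Finset.card_product, Int.card_Icc]
    have : ((Q : ℤ) + 1 - -(Q : ℤ)).toNat = 2 * Q + 1 := by omega
    rw [this]
    push_cast
    ring
  have hmIS : ∀ m : ℤ × ℤ, |(m.1 : ℝ)| ≤ R / (2 * s) + 1 → |(m.2 : ℝ)| ≤ R / (2 * s) + 1 → m ∈ IS := by
    intro m h1 h2
    have hQr : R / (2 * s) + 1 ≤ Q := Nat.le_ceil _
    have key : ∀ k : ℤ, |(k : ℝ)| ≤ R / (2 * s) + 1 → k ∈ Finset.Icc (-(Q : ℤ)) Q := by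
      intro k hk
      have h1 := abs_le.1 (hk.trans hQr)
      rw [Finset.mem_Icc]
      constructor
      · have : ((-(Q : ℤ) : ℤ) : ℝ) ≤ k := by push_cast; linarith [h1.1]
        exact_mod_cast this
      · have : (k : ℝ) ≤ ((Q : ℤ) : ℝ) := by push_cast; linarith [h1.2]
        exact_mod_cast this
    rw [hIS, Finset.mem_product]
    exact ⟨key _ h1, key _ h2⟩
  -- one square
  set Z : Set ℂ := {w | w ∈ closedBall z R ∧ f (φ w) = 0} with hZ
  have hone : ∀ m₀ : ℤ × ℤ, (μH[1] : Measure ℂ)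
      (Z ∩ {w | |(w - rt z s m₀).re| ≤ s ∧ |(w - rt z s m₀).im| ≤ s}) ≤
      ENNReal.ofReal (A * sl) := by
    intro m₀
    rcases Set.eq_empty_or_nonempty
      (Z ∩ {w | |(w - rt z s m₀).re| ≤ s ∧ |(w - rt z s m₀).im| ≤ s}) with he | ⟨y, hy, hy1, hy2⟩
    · rw [he, measure_empty]
      exact zero_le
    set p : ℂ := rt z s m₀ with hp
    have hyR : ‖y - z‖ ≤ R := by
      have := hy.1
      rwa [mem_closedBall, dist_eq_norm] at this
    have hyp : ‖y - p‖ ≤ 2 * s := by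
      refine (Complex.norm_le_abs_re_add_abs_im _).trans ?_
      linarith
    have hpz : ‖p - z‖ ≤ R + 2 * s := by
      have e : p - z = (y - z) - (y - p) := by ring
      rw [e]
      refine (norm_sub_le _ _).trans ?_
      linarith
    have hpz' : p ∈ closedBall z (3 * R / 2) := by
      rw [mem_closedBall, dist_eq_norm]
      linarith
    have hsub32 : closedBall p (32 * s) ⊆ closedBall z (3 * R / 2) := by
      refine closedBall_subset_closedBall' ?_
      rw [dist_eq_norm]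
      linarith
    have hsub2 : closedBall p (32 * s) ⊆ closedBall z (2 * R) :=
      hsub32.trans (closedBall_subset_closedBall (by linarith))
    have hloc : Loc lam' L s p (fun w => k * ρ w) (fun w => f (φ w)) := by
      refine ⟨by linarith, hs0, by linarith, ?_, ?_⟩
      · intro w hw
        have hw2 := hsub2 hw
        have hwV := hG.sub hw2
        have hρc : ContDiffAt ℝ 1 ρ w := (hG.smooth w hwV).contDiffAt (hVn w hwV)
        have hρ0 := hρ w hwV
        have hb := hG.bd w hw2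
        refine ⟨(hsm w hwV).contDiffAt (hVn w hwV), contDiffAt_const.mul hρc,
          mul_nonneg hk0 hρ0, ?_, ?_, ?_⟩
        · calc k * ρ w ≤ 1 * ρ w := mul_le_mul_of_nonneg_right hk1 hρ0
            _ = ρ w := one_mul _
            _ ≤ L := (le_abs_self _).trans hb.1
        · have h1 : fderiv ℝ (fun w => k * ρ w) w = k • fderiv ℝ ρ w :=
            fderiv_const_mul (hρc.differentiableAt (by norm_num)) k
          rw [h1, norm_smul, Real.norm_eq_abs, abs_of_nonneg hk0]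
          calc k * ‖fderiv ℝ ρ w‖ ≤ 1 * ‖fderiv ℝ ρ w‖ :=
                mul_le_mul_of_nonneg_right hk1 (norm_nonneg _)
            _ = ‖fderiv ℝ ρ w‖ := one_mul _
            _ ≤ L := hb.2
        · have h1 : lam' * (k * ρ w) * f (φ w) = lam * ρ w * f (φ w) := by
            rw [hk]; field_simp
          rw [h1]
          exact heq w hwV
      · intro w t ht hwt
        exact hposd w (hsub32 (hwt (mem_closedBall_self ht.le))) t ht
    have hgr : gr (fun w => f (φ w)) p s ≤ 2 * Cg / s * (sl * s) := by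
      have h1 : sn (fun w => f (φ w)) (closedBall p (32 * s)) ≤ sn f Set.univ :=
        sn_le2 (sn_nonneg2 _ _) fun w _ => le_sn2 (fun x _ => hBf' x) (Set.mem_univ (φ w))
      have h2 := hsmall p hpz' (2 * s) (by linarith)
      have h3 := hgrow (φ p)
      have hp2 := hposd p hpz' (2 * s) (by linarith)
      have hp32 := hposd p hpz' (32 * s) (by linarith)
      have h4 : sn (fun w => f (φ w)) (closedBall p (32 * s)) /
          sn (fun w => f (φ w)) (closedBall p (2 * s)) ≤ Real.exp (Cg * (1 + √lam)) := by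
        rw [div_le_iff₀ hp2]
        calc _ ≤ _ := h1
          _ ≤ _ := h3
          _ ≤ _ := mul_le_mul_of_nonneg_left h2 (Real.exp_pos _).le
      have h5 := Real.log_le_log (div_pos hp32 hp2) h4
      rw [Real.log_exp] at h5
      unfold gr
      refine h5.trans ?_
      have e : 2 * Cg / s * (sl * s) = 2 * Cg * sl := by field_simp
      rw [e]
      nlinarith
    refine le_trans (measure_mono ?_) (H lam' p (fun w => k * ρ w) (fun w => f (φ w)) hl3 hloc hgr)
    rintro w ⟨hw, hw1, hw2⟩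
    exact ⟨hw1, hw2, hw.2⟩
  -- the whole disc
  have hZsum : (μH[1] : Measure ℂ) Z ≤ ENNReal.ofReal ((2 * Q + 1) ^ 2 * (A * sl)) := by
    have hcov : Z ⊆ ⋃ m ∈ IS, (Z ∩ {w | |(w - rt z s m).re| ≤ s ∧ |(w - rt z s m).im| ≤ s}) := by
      intro w hw
      have hwR : ‖w - z‖ ≤ R := by
        have := hw.1
        rwa [mem_closedBall, dist_eq_norm] at this
      obtain ⟨m, h1, h2, h3, h4⟩ := locate2 hs0 hwR
      simp only [Set.mem_iUnion]
      exact ⟨m, hmIS m h3 h4, hw, h1, h2⟩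
    calc (μH[1] : Measure ℂ) Z ≤ _ := measure_mono hcov
      _ ≤ ∑ m ∈ IS, (μH[1] : Measure ℂ)
          (Z ∩ {w | |(w - rt z s m).re| ≤ s ∧ |(w - rt z s m).im| ≤ s}) :=
            measure_biUnion_finset_le _ _
      _ ≤ ∑ m ∈ IS, ENNReal.ofReal (A * sl) := Finset.sum_le_sum fun m _ => hone m
      _ = ENNReal.ofReal ((2 * Q + 1) ^ 2 * (A * sl)) := by
          rw [Finset.sum_const, nsmul_eq_mul,
            ENNReal.ofReal_mul (show (0 : ℝ) ≤ (2 * Q + 1) ^ 2 by positivity), ← hIScard,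
            ENNReal.ofReal_natCast]
  -- the image
  have hlip : LipschitzOnWith (Real.toNNReal c⁻¹) φ Z := by
    refine LipschitzOnWith.of_dist_le_mul fun w hw w' hw' => ?_
    have h1 := (hG.lip w (closedBall_subset_closedBall (by linarith) hw.1) w'
      (closedBall_subset_closedBall (by linarith) hw'.1)).2
    rw [Real.coe_toNNReal _ (by positivity), dist_eq_norm w w', ← div_eq_inv_mul, le_div_iff₀ hc]
    linarith
  have h9 := hlip.hausdorffMeasure_image_le (d := 1) zero_le_one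
  refine h9.trans ?_
  rw [ENNReal.rpow_one]
  calc (Real.toNNReal c⁻¹ : ℝ≥0∞) * (μH[1] : Measure ℂ) Z ≤
      ENNReal.ofReal c⁻¹ * ENNReal.ofReal ((2 * Q + 1) ^ 2 * (A * sl)) := by
        gcongr
        exact le_of_eq rfl
    _ = ENNReal.ofReal (c⁻¹ * ((2 * Q + 1) ^ 2 * (A * sl))) := (ENNReal.ofReal_mul (by positivity)).symm
    _ ≤ ENNReal.ofReal (c⁻¹ * ((2 * Q + 1) ^ 2 * (A * √Λ)) * √(1 + lam)) := by
        apply ENNReal.ofReal_le_ofReal
        have e : c⁻¹ * ((2 * Q + 1) ^ 2 * (A * √Λ)) * √(1 + lam) =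
            c⁻¹ * ((2 * Q + 1) ^ 2 * (A * (√Λ * √(1 + lam)))) := by ring
        rw [e]
        gcongr

/-- GS -/
theorem gs_of (h1 : G1.{u, v}) (h2 : G2.{u, v}) (hSQ : S_SQ) : S_GS.{u, v} := by
  classical
  intro M ι _ _ _ _ _ U φ ρ hA hρ
  obtain ⟨n, i, z, R, c, L, δ, hG, hcov⟩ := h2 M ι U φ ρ hA
  choose r₀ hr₀ h3' using fun a => piece hSQ M (φ (i a)) (ρ (i a)) (U (i a)) (z a) (R a) c L δ (hG a)
    (hρ (i a))
  choose Cg hCg hgr using fun a => h1 M ι U φ ρ hA (r₀ a) (hr₀ a)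
  choose A hA0 hfin using fun a => h3' a (Cg a) (hCg a)
  refine ⟨1 + ∑ a, A a, by
    have := Finset.sum_nonneg fun a (_ : a ∈ Finset.univ) => (hA0 a).le
    linarith, ?_⟩
  intro lam f hlam hf hne
  have hb : BddAbove ((fun x => |f x|) '' Set.univ) :=
    isCompact_univ.bddAbove_image (cont hA hf).abs.continuousOn
  have hpos : ∀ (x : M) (r : ℝ), 0 < r → 0 < sn f (ball x r) := by
    intro x r hr
    obtain ⟨Cr, -, hgrr⟩ := h1 M ι U φ ρ hA r hr
    obtain ⟨x₀, hx₀⟩ := hne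
    have h4 := (abs_pos.2 hx₀).trans_le ((le_sn hb x₀).trans (hgrr lam f hlam hf x))
    exact (mul_pos_iff_of_pos_left (Real.exp_pos _)).1 h4
  have hsub : {x | f x = 0} ⊆ ⋃ a : Fin n, φ (i a) '' {w | w ∈ closedBall (z a) (R a) ∧ f (φ (i a) w) = 0} := by
    intro x hx
    obtain ⟨a, w, hw, rfl⟩ := hcov x
    simp only [Set.mem_iUnion]
    exact ⟨a, w, ⟨hw, hx⟩, rfl⟩
  calc (μH[1] : Measure M) {x | f x = 0} ≤ _ := measure_mono hsub
    _ ≤ ∑ a : Fin n, (μH[1] : Measure M)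
        (φ (i a) '' {w | w ∈ closedBall (z a) (R a) ∧ f (φ (i a) w) = 0}) :=
          measure_iUnion_fintype_le _ _
    _ ≤ ∑ a : Fin n, ENNReal.ofReal (A a * √(1 + lam)) := by
        refine Finset.sum_le_sum fun a _ => ?_
        exact hfin a lam f hlam (hf (i a)).1 (hf (i a)).2 hb hpos (fun x => hgr a lam f hlam hf x)
    _ = ENNReal.ofReal (∑ a : Fin n, A a * √(1 + lam)) :=
        (ENNReal.ofReal_sum_of_nonneg fun a _ => by have := hA0 a; positivity).symm
    _ ≤ ENNReal.ofReal ((1 + ∑ a, A a) * √(1 + lam)) := by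
        apply ENNReal.ofReal_le_ofReal
        rw [← Finset.sum_mul]
        have := Real.sqrt_nonneg (1 + lam)
        nlinarith

end Pool.Agent.D0H65.YN
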