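import Pool.Agent.D0H81.YN.Stm
import Pool.Agent.Q73.AD.TA2
import Pool.Agent.Helper904_QS.J

/-!
# The mean value inequality with the kernel `chi`
-/

set_option autoImplicit false
open MeasureTheory Filter Topology Complex Metric
open scoped ContDiff ENNReal NNReal

namespace Pool.Agent.D0H65.YN

open Pool.Agent.Q73.NL (dx dy lap)
open Pool.Agent.Q73.AD
open Pool.Agent.D0H81.YN
open Pool.Agent.Helper904_QS (chi Phi)
open Pool.Agent.Helper904_QS.PKER

/-- a smooth cutoff -/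
theorem cutoff (a b : ℝ) (ha : 0 < a) (hab : a < b) : ∃ χ : ℂ → ℝ, ContDiff ℝ ∞ χ ∧
    HasCompactSupport χ ∧ tsupport χ ⊆ ball 0 b ∧ (∀ z, 0 ≤ χ z) ∧ (∀ z, χ z ≤ 1) ∧
    ∀ z ∈ closedBall (0 : ℂ) a, χ z = 1 := by
  let g : ContDiffBump (0 : ℂ) := ⟨a, (a + b) / 2, ha, by linarith⟩
  refine ⟨g, g.contDiff, g.hasCompactSupport, ?_, fun z => g.nonneg, fun z => g.le_one, fun z hz =>
    g.one_of_mem_closedBall hz⟩
  rw [g.tsupport_eq]
  exact closedBall_subset_ball (by show (a + b) / 2 < b; linarith)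

theorem meanJ (v : ℂ → ℝ) (a b r C₁ : ℝ) (y : ℂ) (ha : 0 < a) (hab : a < b) (hr : 0 < r)
    (hy : ‖y‖ + r ≤ a) (hv : ∀ z ∈ ball (0 : ℂ) b, ContDiffAt ℝ ∞ v z)
    (hl : ∀ z ∈ ball (0 : ℂ) b, -C₁ ≤ lap v z) :
    Integrable (fun z => chi r (z - y) * v z) ∧
    2 * Real.pi * v y ≤ (∫ z, chi r (z - y) * v z) + C₁ * (Real.pi * r ^ 2 / 6) := by
  obtain ⟨χ, hχ, hχc, hχs, -, -, hχ1⟩ := cutoff a b ha hab
  set f : ℂ → ℝ := fun z => χ z * v z with hf
  have hfc : ContDiff ℝ ∞ f := ta2_cd hχ hχs hv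
  have hin : ∀ z : ℂ, ‖z - y‖ < r → z ∈ ball (0 : ℂ) a := by
    intro z hz
    rw [mem_ball, dist_zero_right]
    have e : z = (z - y) + y := by ring
    rw [e]
    refine (norm_add_le _ _).trans_lt ?_
    linarith
  have hfv : ∀ z ∈ ball (0 : ℂ) a, f z = v z := by
    intro z hz
    rw [hf]
    simp only
    rw [hχ1 z (ball_subset_closedBall hz), one_mul]
  have hlapf : ∀ z ∈ ball (0 : ℂ) a, Pool.Agent.Helper904_QS.lap f z = lap v z := by
    intro z hz
    have h1 : f =ᶠ[𝓝 z] v := by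
      filter_upwards [isOpen_ball.mem_nhds hz] with w hw
      exact hfv w hw
    have h2 : Pool.Agent.Q73.NL.dx f =ᶠ[𝓝 z] dx v := by
      filter_upwards [h1.eventuallyEq_nhds] with w hw
      unfold dx
      rw [hw.fderiv_eq]
    have h3 : Pool.Agent.Q73.NL.dy f =ᶠ[𝓝 z] dy v := by
      filter_upwards [h1.eventuallyEq_nhds] with w hw
      unfold dy
      rw [hw.fderiv_eq]
    show fderiv ℝ (Pool.Agent.Q73.NL.dx f) z 1 + fderiv ℝ (Pool.Agent.Q73.NL.dy f) z I =
      fderiv ℝ (dx v) z 1 + fderiv ℝ (dy v) z I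
    rw [h2.fderiv_eq, h3.fderiv_eq]
  have hJ := Pool.Agent.Helper904_QS.PJ.t_J f y r (contDiff_infty.1 hfc 2) hr
  have e1 : (fun z => chi r (z - y) * f z) = fun z => chi r (z - y) * v z := by
    ext z
    by_cases hz : ‖z - y‖ < r
    · rw [hfv z (hin z hz)]
    · rw [chi_out r hr _ (not_lt.1 hz)]
      ring
  have hI := t_INT f y r hfc.continuous hr
  have hyv : f y = v y := hfv y (hin y (by simpa using hr))
  refine ⟨e1 ▸ hI.1, ?_⟩
  have hPi : Integrable (fun z => Phi r (z - y)) := (Phi_int r hr).1.comp_sub_right y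
  have hPv : ∫ z, Phi r (z - y) = Real.pi * r ^ 2 / 6 := by
    rw [integral_sub_right_eq_self (fun z => Phi r z) y]
    exact (Phi_int r hr).2
  have cl : Continuous (Pool.Agent.Helper904_QS.lap f) :=
    Pool.Agent.Helper904_QS.continuous_lap (contDiff_infty.1 hfc 2)
  have hI2 := (t_INT (Pool.Agent.Helper904_QS.lap f) y r cl hr).2
  have h2 : -(C₁ * (Real.pi * r ^ 2 / 6)) ≤ ∫ z, Phi r (z - y) * Pool.Agent.Helper904_QS.lap f z := by
    have h3 : ∫ z, Phi r (z - y) * (-C₁) ≤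
        ∫ z, Phi r (z - y) * Pool.Agent.Helper904_QS.lap f z := by
      apply integral_mono (hPi.mul_const _) hI2
      intro z
      by_cases hz : ‖z - y‖ < r
      · have h4 := hin z hz
        have h5 := hl z (ball_subset_ball hab.le h4)
        simp only
        rw [hlapf z h4]
        exact mul_le_mul_of_nonneg_left h5 (Phi_nonneg r hr _)
      · simp only
        rw [Phi_out r _ (not_lt.1 hz)]
        simp
    rw [integral_mul_const, hPv] at h3
    linarith
  rw [e1, hyv] at hJ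
  linarith

end Pool.Agent.D0H65.YN
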