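import Pool.Agent.D0H81.YN.StmL
import Pool.Agent.D0H65.YN.Mean
import Pool.Agent.Q73.AD.TG4

/-!
# L1: eigenfunctions have zeros
-/

set_option autoImplicit false
open MeasureTheory Filter Topology Complex Metric
open scoped ContDiff ENNReal NNReal

namespace Pool.Agent.D0H65.YN

open Pool.Agent.Q73.NL (dx dy lap)
open Pool.Agent.Q73.AD
open Pool.Agent.Q73.AD.TG4
open Pool.Agent.D0H81.YN
open Pool.Agent.Helper904_QS (chi Phi)
open Pool.Agent.Helper904_QS.PKER

universe u v

theorem lap_neg (g : ℂ → ℝ) (z : ℂ) : lap (fun w => -g w) z = -lap g z := by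
  have e1 : dx (fun w => -g w) = fun w => -dx g w := by
    funext w
    show fderiv ℝ (fun w => -g w) w 1 = -fderiv ℝ g w 1
    rw [fderiv_fun_neg]
    rfl
  have e2 : dy (fun w => -g w) = fun w => -dy g w := by
    funext w
    show fderiv ℝ (fun w => -g w) w I = -fderiv ℝ g w I
    rw [fderiv_fun_neg]
    rfl
  show fderiv ℝ (dx (fun w => -g w)) z 1 + fderiv ℝ (dy (fun w => -g w)) z I =
    -(fderiv ℝ (dx g) z 1 + fderiv ℝ (dy g) z I)
  rw [e1, e2, fderiv_fun_neg, fderiv_fun_neg]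
  simp only [ContinuousLinearMap.neg_apply]
  ring

theorem lap_const_near {g : ℂ → ℝ} {z : ℂ} {k : ℝ} (h : g =ᶠ[𝓝 z] fun _ => k) : lap g z = 0 := by
  have h1 : dx g =ᶠ[𝓝 z] fun _ => 0 := by
    filter_upwards [h.eventuallyEq_nhds] with w hw
    show fderiv ℝ g w 1 = 0
    rw [hw.fderiv_eq]
    simp
  have h2 : dy g =ᶠ[𝓝 z] fun _ => 0 := by
    filter_upwards [h.eventuallyEq_nhds] with w hw
    show fderiv ℝ g w I = 0
    rw [hw.fderiv_eq]
    simp
  show fderiv ℝ (dx g) z 1 + fderiv ℝ (dy g) z I = 0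
  rw [h1.fderiv_eq, h2.fderiv_eq]
  simp

/-- the strong minimum principle -/
theorem smin {w : ℂ → ℝ} {z : ℂ} {b : ℝ} (hb : 0 < b)
    (hw : ∀ z' ∈ ball z b, ContDiffAt ℝ ∞ w z' ∧ 0 ≤ w z' ∧ lap w z' ≤ 0) (h0 : w z = 0) :
    ∀ z' ∈ ball z (b / 4), w z' = 0 := by
  set v : ℂ → ℝ := fun ζ => -w (ζ + z) with hv
  have hmem : ∀ ζ ∈ ball (0 : ℂ) b, ζ + z ∈ ball z b := by
    intro ζ hζ
    rw [mem_ball, dist_zero_right] at hζ
    rw [mem_ball, dist_eq_norm]
    simpa using hζ
  have hvc : ∀ ζ ∈ ball (0 : ℂ) b, ContDiffAt ℝ ∞ v ζ := by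
    intro ζ hζ
    have h1 : ContDiffAt ℝ ∞ (fun ζ : ℂ => ζ + z) ζ := contDiffAt_id.add contDiffAt_const
    exact (ContDiffAt.comp ζ (hw _ (hmem ζ hζ)).1 h1).neg
  have hlap : ∀ ζ ∈ ball (0 : ℂ) b, -0 ≤ lap v ζ := by
    intro ζ hζ
    have h1 : lap v ζ = -lap (fun ζ => w (ζ + z)) ζ := lap_neg _ _
    have h2 : lap (fun ζ => w (ζ + z)) ζ = lap w (ζ + z) :=
      Pool.Agent.Helper904_QS.PJ.lap_shift w z ζ
    have h3 := (hw _ (hmem ζ hζ)).2.2
    rw [h1, h2]
    linarith
  have hr : 0 < b / 2 := by linarith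
  obtain ⟨hi, hm⟩ := meanJ v (b / 2) b (b / 2) 0 0 hr (by linarith) hr (by simp) hvc hlap
  have hv0 : v 0 = 0 := by rw [hv]; simp [h0]
  rw [hv0] at hm
  simp only [sub_zero, mul_zero, zero_mul, add_zero] at hm hi
  have hneg : ∀ ζ, 0 ≤ -(chi (b / 2) ζ * v ζ) := by
    intro ζ
    by_cases hζ : ‖ζ‖ < b / 2
    · have h1 := (hw _ (hmem ζ (by rw [mem_ball, dist_zero_right]; linarith))).2.1
      have h2 := chi_nonneg (b / 2) ζ
      have h3 : -(chi (b / 2) ζ * v ζ) = chi (b / 2) ζ * w (ζ + z) := by rw [hv]; ring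
      rw [h3]
      exact mul_nonneg h2 h1
    · rw [chi_out _ hr _ (not_lt.1 hζ)]
      simp
  have hI : ∫ ζ, -(chi (b / 2) ζ * v ζ) = 0 := by
    apply le_antisymm
    · rw [integral_neg]
      linarith
    · exact integral_nonneg hneg
  have hae := (integral_eq_zero_iff_of_nonneg hneg hi.neg).1 hI
  have hae2 : v =ᵐ[volume.restrict (ball (0 : ℂ) (b / 4))] fun _ => 0 := by
    rw [EventuallyEq, ae_restrict_iff' measurableSet_ball]
    filter_upwards [hae] with ζ hζ hζb
    rw [mem_ball, dist_zero_right] at hζb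
    have h1 := chi_ge (b / 2) hr ζ (by linarith)
    have h2 : 0 < chi (b / 2) ζ := lt_of_lt_of_le (by positivity) h1
    have h3 : chi (b / 2) ζ * v ζ = 0 := by
      have : -(chi (b / 2) ζ * v ζ) = 0 := hζ
      linarith
    rcases mul_eq_zero.1 h3 with h | h
    · exact absurd h h2.ne'
    · exact h
  have heq := Measure.eqOn_open_of_ae_eq hae2 isOpen_ball
    (fun ζ hζ => (hvc ζ (ball_subset_ball (by linarith) hζ)).continuousAt.continuousWithinAt)
    continuousOn_const
  intro z' hz'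
  have h1 : z' - z ∈ ball (0 : ℂ) (b / 4) := by
    rw [mem_ball, dist_eq_norm] at hz'
    rw [mem_ball, dist_zero_right]
    exact hz'
  have h2 := heq h1
  simp only [hv, sub_add_cancel, neg_eq_zero] at h2
  exact h2

/-- there is no positive eigenfunction -/
theorem no_pos {M : Type u} {ι : Type v} [MetricSpace M] [CompactSpace M] [ConnectedSpace M]
    {U : ι → Set ℂ} {φ : ι → ℂ → M} {ρ : ι → ℂ → ℝ} (hA : Atl U φ ρ)
    (hρ : ∀ i, ∀ z ∈ U i, 0 < ρ i z) {lam : ℝ} {f : M → ℝ} (hlam : 0 < lam) (hf : Eig U φ ρ lam f)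
    (hpos : ∀ x, 0 < f x) : False := by
  have hc : Continuous f := cont hA hf
  obtain ⟨x₀, -, hx₀⟩ := isCompact_univ.exists_isMinOn (Set.univ_nonempty (α := M)) hc.continuousOn
  have hmin : ∀ x, f x₀ ≤ f x := fun x => hx₀ (Set.mem_univ x)
  set A : Set M := {x | f x = f x₀} with hAd
  have hclosed : IsClosed A := isClosed_eq hc continuous_const
  have hopen : IsOpen A := by
    rw [isOpen_iff_mem_nhds]
    intro x hx
    obtain ⟨i, z, hz, rfl⟩ := hA.cover x
    obtain ⟨b, hb, hbU⟩ := Metric.isOpen_iff.1 (hA.dom i) z hz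
    have h1 : ∀ z' ∈ ball z (b / 4), f (φ i z') - f x₀ = 0 := by
      refine smin (w := fun z' => f (φ i z') - f x₀) hb (fun z' hz' => ⟨?_, ?_, ?_⟩) ?_
      · exact ((hf i).1.contDiffAt ((hA.dom i).mem_nhds (hbU hz'))).sub contDiffAt_const
      · have := hmin (φ i z')
        linarith
      · have e1 : lap (fun z' => f (φ i z') - f x₀) z' = lap (fun z' => f (φ i z')) z' := by
          have d1 : dx (fun z' => f (φ i z') - f x₀) = dx (fun z' => f (φ i z')) := by
            funext w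
            show fderiv ℝ (fun z' => f (φ i z') - f x₀) w 1 = fderiv ℝ (fun z' => f (φ i z')) w 1
            rw [fderiv_sub_const]
          have d2 : dy (fun z' => f (φ i z') - f x₀) = dy (fun z' => f (φ i z')) := by
            funext w
            show fderiv ℝ (fun z' => f (φ i z') - f x₀) w I = fderiv ℝ (fun z' => f (φ i z')) w I
            rw [fderiv_sub_const]
          show fderiv ℝ (dx (fun z' => f (φ i z') - f x₀)) z' 1 +
            fderiv ℝ (dy (fun z' => f (φ i z') - f x₀)) z' I = _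
          rw [d1, d2]
          rfl
        rw [e1]
        have h2 := (hf i).2 z' (hbU hz')
        have h3 := hρ i z' (hbU hz')
        have h4 := hpos (φ i z')
        have h5 : 0 < lam * ρ i z' * f (φ i z') := by positivity
        linarith
      · have : f (φ i z) = f x₀ := hx
        linarith
    have h2 : IsOpen (φ i '' ball z (b / 4)) :=
      hA.opn i _ isOpen_ball ((ball_subset_ball (by linarith)).trans hbU)
    refine mem_of_superset (h2.mem_nhds ⟨z, mem_ball_self (by linarith), rfl⟩) ?_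
    rintro y ⟨z', hz', rfl⟩
    have := h1 z' hz'
    show f (φ i z') = f x₀
    linarith
  have huniv : A = Set.univ := IsClopen.eq_univ ⟨hclosed, hopen⟩ ⟨x₀, rfl⟩
  obtain ⟨i, z, hz, hzx⟩ := hA.cover x₀
  have h1 := (hf i).2 z hz
  have h2 : lap (fun z => f (φ i z)) z = 0 := by
    apply lap_const_near (k := f x₀)
    refine Eventually.of_forall fun w => ?_
    have : φ i w ∈ A := by rw [huniv]; trivial
    exact this
  have h3 := hρ i z hz
  have h4 := hpos (φ i z)
  have h5 : 0 < lam * ρ i z * f (φ i z) := by positivity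
  rw [h2] at h1
  linarith

theorem t_L1 : S_L1.{u, v} := by
  intro M ι _ _ _ U φ ρ hA hρ lam f hlam hf hne
  by_contra hno
  have hno : ∀ x, f x ≠ 0 := fun x h0 => hno ⟨x, h0⟩
  have hc : Continuous f := cont hA hf
  obtain ⟨x₁, hx₁⟩ := hne
  have hsign : (∀ x, 0 < f x) ∨ (∀ x, f x < 0) := by
    rcases lt_or_gt_of_ne hx₁ with h1 | h1
    · right
      intro x
      by_contra h2
      have h3 : 0 < f x := lt_of_le_of_ne (not_lt.1 h2) (hno x).symm
      obtain ⟨y, hy⟩ := mem_range_of_exists_le_of_exists_ge hc ⟨x₁, h1.le⟩ ⟨x, h3.le⟩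
      exact hno y hy
    · left
      intro x
      by_contra h2
      have h3 : f x < 0 := lt_of_le_of_ne (not_lt.1 h2) (hno x)
      obtain ⟨y, hy⟩ := mem_range_of_exists_le_of_exists_ge hc ⟨x, h3.le⟩ ⟨x₁, h1.le⟩
      exact hno y hy
  rcases hsign with h | h
  · exact no_pos hA hρ hlam hf h
  · have hf' : Eig U φ ρ lam (fun x => -f x) := by
      intro i
      refine ⟨(hf i).1.neg, fun z hz => ?_⟩
      have h1 := (hf i).2 z hz
      have h2 : lap (fun z => -f (φ i z)) z = -lap (fun z => f (φ i z)) z := lap_neg _ _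
      show lap (fun z => -f (φ i z)) z + lam * ρ i z * -f (φ i z) = 0
      rw [h2]
      linarith
    exact no_pos hA hρ hlam hf' fun x => neg_pos.2 (h x)

end Pool.Agent.D0H65.YN
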