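import Pool.Agent.D0H81.YN.StmL
import Pool.Agent.Q73.NL.T7

/-!
# L3: zeros in every disc of the size of the wave length
-/

set_option autoImplicit false
open MeasureTheory Filter Topology Complex Metric
open scoped ContDiff ENNReal NNReal

namespace Pool.Agent.D0H65.YN

open Pool.Agent.Q73.NL (dx dy lap)
open Pool.Agent.D0H81.YN

theorem bump0 : ∃ f : ℂ → ℝ, ContDiff ℝ ∞ f ∧ HasCompactSupport f ∧ Function.support f ⊆ ball 0 (1 / 2) ∧
    0 < ∫ z, f z ^ 2 := by
  let g : ContDiffBump (0 : ℂ) := ⟨1 / 4, 1 / 2, by norm_num, by norm_num⟩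
  refine ⟨g, g.contDiff, g.hasCompactSupport, ?_, ?_⟩
  · rw [g.support_eq]
  · have hc : Continuous (fun z => g z ^ 2) := g.continuous.pow 2
    have hcs : HasCompactSupport (fun z => g z ^ 2) := by
      refine HasCompactSupport.intro g.hasCompactSupport.isCompact fun z hz => ?_
      rw [image_eq_zero_of_notMem_tsupport hz]
      norm_num
    refine hc.integral_pos_of_hasCompactSupport_nonneg_nonzero hcs (fun z => sq_nonneg _) (x := 0) ?_
    have : g 0 = 1 := g.one_of_mem_closedBall (by simp [g.rIn_pos.le])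
    rw [this]
    norm_num

theorem t_L3 : S_L3 := by
  obtain ⟨f₀, hf, hfc, hfs, hpos⟩ := bump0
  set D : ℝ := ∫ z, (dx f₀ z ^ 2 + dy f₀ z ^ 2) with hD
  set E : ℝ := ∫ z, f₀ z ^ 2 with hE
  have hD0 : 0 ≤ D := integral_nonneg fun z => by positivity
  refine ⟨D / E + 1, by have : 0 ≤ D / E := by positivity
                        linarith, ?_⟩
  intro p R m V u hR hm hK hsol
  by_contra hno
  have hno : ∀ z ∈ ball p R, u z ≠ 0 := fun z hz h0 => hno ⟨z, hz, h0⟩
  set f : ℂ → ℝ := fun z => f₀ (R⁻¹ • (z - p)) with hfd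
  have hRi : 0 < R⁻¹ := inv_pos.2 hR
  have hsupp : Function.support f ⊆ closedBall p (R / 2) := by
    intro z hz
    have h1 : R⁻¹ • (z - p) ∈ ball (0 : ℂ) (1 / 2) := hfs hz
    rw [mem_ball, dist_zero_right, norm_smul, Real.norm_eq_abs, abs_of_pos hRi,
      inv_mul_lt_iff₀ hR] at h1
    rw [mem_closedBall, dist_eq_norm]
    linarith
  have hts : tsupport f ⊆ closedBall p (R / 2) := closure_minimal hsupp isClosed_closedBall
  have htsb : tsupport f ⊆ ball p R := hts.trans (closedBall_subset_ball (by linarith))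
  have hfcs : HasCompactSupport f :=
    HasCompactSupport.intro (isCompact_closedBall p (R / 2)) fun z hz => by
      by_contra h
      exact hz (hsupp h)
  have hin : ContDiff ℝ ∞ (fun z : ℂ => R⁻¹ • (z - p)) :=
    (contDiff_id.sub contDiff_const).const_smul R⁻¹
  have hfcd : ContDiff ℝ ∞ f := hf.comp hin
  have hder : ∀ z v : ℂ, fderiv ℝ f z v = R⁻¹ * fderiv ℝ f₀ (R⁻¹ • (z - p)) v := by
    intro z v
    have h1 : HasFDerivAt (fun z : ℂ => R⁻¹ • (z - p)) (R⁻¹ • ContinuousLinearMap.id ℝ ℂ) z :=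
      ((hasFDerivAt_id z).sub_const p).const_smul R⁻¹
    have h2 : HasFDerivAt f₀ (fderiv ℝ f₀ (R⁻¹ • (z - p))) (R⁻¹ • (z - p)) :=
      (hf.differentiable (by simp) _).hasFDerivAt
    have h3 : HasFDerivAt f _ z := h2.comp z h1
    rw [h3.fderiv]
    simp
  have hcv : ∀ g : ℂ → ℝ, ∫ z, g (R⁻¹ • (z - p)) = R ^ 2 * ∫ z, g z := by
    intro g
    rw [integral_sub_right_eq_self (fun z => g (R⁻¹ • z)) p,
      MeasureTheory.Measure.integral_comp_inv_smul]
    rw [Complex.finrank_real_complex, abs_of_pos (by positivity), smul_eq_mul]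
  have hSol : Pool.Agent.Q73.NL.Sol (ball p R) V u :=
    ⟨fun z hz => (hsol z hz).1.contDiffWithinAt, fun z hz => (hsol z hz).2.2.2⟩
  have h7 := Pool.Agent.Q73.NL.t7 (ball p R) V u f isOpen_ball hSol hfcd hfcs
    fun z hz => ⟨htsb hz, hno z (htsb hz)⟩
  have hr : ∫ z, (Pool.Agent.Q73.NL.dx f z ^ 2 + Pool.Agent.Q73.NL.dy f z ^ 2) = D := by
    have e1 : (fun z => Pool.Agent.Q73.NL.dx f z ^ 2 + Pool.Agent.Q73.NL.dy f z ^ 2) = fun z =>
        (fun w => (R⁻¹) ^ 2 * (dx f₀ w ^ 2 + dy f₀ w ^ 2)) (R⁻¹ • (z - p)) := by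
      ext z
      simp only [Pool.Agent.Q73.NL.dx, Pool.Agent.Q73.NL.dy, hder]
      ring
    rw [e1]
    refine (hcv fun w => (R⁻¹) ^ 2 * (dx f₀ w ^ 2 + dy f₀ w ^ 2)).trans ?_
    rw [integral_const_mul, ← hD]
    field_simp
  have hfc2 : Continuous (fun z => f z ^ 2) := hfcd.continuous.pow 2
  have hf2i : Integrable (fun z => f z ^ 2) := by
    refine hfc2.integrable_of_hasCompactSupport ?_
    refine HasCompactSupport.intro hfcs.isCompact fun z hz => ?_
    rw [image_eq_zero_of_notMem_tsupport hz]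
    norm_num
  have hVi : Integrable (fun z => V z * f z ^ 2) := by
    have hc : Continuous (fun z => V z * f z ^ 2) := by
      rw [continuous_iff_continuousAt]
      intro z
      by_cases hz : z ∈ tsupport f
      · exact (hsol z (htsb hz)).2.1.mul hfc2.continuousAt
      · have h1 : (fun z => V z * f z ^ 2) =ᶠ[𝓝 z] fun _ => 0 := by
          have h2 : (tsupport f)ᶜ ∈ 𝓝 z := (isClosed_tsupport f).isOpen_compl.mem_nhds hz
          filter_upwards [h2] with y hy
          rw [image_eq_zero_of_notMem_tsupport hy]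
          norm_num
        exact continuousAt_const.congr_of_eventuallyEq h1
    refine hc.integrable_of_hasCompactSupport ?_
    refine HasCompactSupport.intro hfcs.isCompact fun z hz => ?_
    rw [image_eq_zero_of_notMem_tsupport hz]
    norm_num
  have hl : m * (R ^ 2 * E) ≤ ∫ z, V z * f z ^ 2 := by
    have h1 : ∫ z, f z ^ 2 = R ^ 2 * E := hcv (fun w => f₀ w ^ 2)
    rw [← h1, ← integral_const_mul]
    refine integral_mono (hf2i.const_mul m) hVi fun z => ?_
    by_cases hz : z ∈ tsupport f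
    · exact mul_le_mul_of_nonneg_right (hsol z (htsb hz)).2.2.1 (sq_nonneg _)
    · simp only
      rw [image_eq_zero_of_notMem_tsupport hz]
      norm_num
  rw [hr] at h7
  have h8 : (D / E + 1) * E ≤ m * R ^ 2 * E := mul_le_mul_of_nonneg_right hK hpos.le
  have h9 : (D / E + 1) * E = D + E := by field_simp
  nlinarith

end Pool.Agent.D0H65.YN
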