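import Pool.Agent.D0H65.YN.Mean
import Pool.Agent.Q73.AD.YY2

/-!
# UB: upper bound of the gradient
-/

set_option autoImplicit false
open MeasureTheory Filter Topology Complex Metric
open scoped ContDiff ENNReal NNReal

namespace Pool.Agent.D0H65.YN

open Pool.Agent.Q73.NL (dx dy lap)
open Pool.Agent.Q73.AD
open Pool.Agent.D0H81.YN
open Pool.Agent.Helper904_QS (chi Phi)
open Pool.Agent.Helper904_QS.PKER

theorem chi_int_loc (g : ℂ → ℝ) (a b r : ℝ) (y : ℂ) (ha : 0 < a) (hab : a < b) (hr : 0 < r)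
    (hy : ‖y‖ + r ≤ a) (hg : ∀ z ∈ ball (0 : ℂ) b, ContinuousAt g z) :
    Integrable (fun z => chi r (z - y) * g z) := by
  obtain ⟨χ, hχ, hχc, hχs, -, -, hχ1⟩ := cutoff a b ha hab
  have hfc : Continuous (fun z => χ z * g z) := ta2_cont hχ.continuous hχs hg
  have hI := (t_INT (fun z => χ z * g z) y r hfc hr).1
  have e1 : (fun z => chi r (z - y) * (χ z * g z)) = fun z => chi r (z - y) * g z := by
    ext z
    by_cases hz : ‖z - y‖ < r
    · have h1 : z ∈ closedBall (0 : ℂ) a := by
        rw [mem_closedBall, dist_zero_right]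
        have e : z = (z - y) + y := by ring
        rw [e]
        refine (norm_add_le _ _).trans ?_
        linarith
      rw [hχ1 z h1, one_mul]
    · rw [chi_out r hr _ (not_lt.1 hz)]
      ring
  rw [e1] at hI
  exact hI

theorem cd_dx {h : ℂ → ℝ} {z : ℂ} (hh : ContDiffAt ℝ ∞ h z) : ContDiffAt ℝ ∞ (dx h) z :=
  (hh.fderiv_right (m := ∞) (by simp)).clm_apply contDiffAt_const

theorem cd_dy {h : ℂ → ℝ} {z : ℂ} (hh : ContDiffAt ℝ ∞ h z) : ContDiffAt ℝ ∞ (dy h) z :=
  (hh.fderiv_right (m := ∞) (by simp)).clm_apply contDiffAt_const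

theorem P_ge (u : ℂ → ℝ) (τ : ℝ) (z : ℂ) : τ ≤ P u τ z := by
  unfold P
  have := sq_nonneg (u z)
  have := sq_nonneg (dx u z)
  have := sq_nonneg (dy u z)
  linarith

theorem t_UB (hDI : S_DI) : S_UB := by
  obtain ⟨C₁, hC₁, hdi⟩ := hDI
  obtain ⟨χ, hχ, hχc, hχs, hχ0, hχ1, hχe⟩ := cutoff 14 15 (by norm_num) (by norm_num)
  have hχs16 : tsupport χ ⊆ ball 0 16 := hχs.trans (ball_subset_ball (by norm_num))
  -- the two constants
  set W : ℂ → ℝ := fun z => 8 * (dx χ z ^ 2 + dy χ z ^ 2) + 2 * χ z ^ 2 with hW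
  have hdxc : Continuous (dx χ) := (hχ.continuous_fderiv (by simp)).clm_apply continuous_const
  have hdyc : Continuous (dy χ) := (hχ.continuous_fderiv (by simp)).clm_apply continuous_const
  have hWc : Continuous W := by
    rw [hW]
    have := hχ.continuous
    fun_prop
  have hW0 : ∀ z, 0 ≤ W z := fun z => by rw [hW]; positivity
  have hWs : ∀ z, z ∉ ball (0 : ℂ) 16 → W z = 0 := by
    intro z hz
    have h1 : z ∉ tsupport χ := fun h => hz (hχs16 h)
    have h2 : χ z = 0 := image_eq_zero_of_notMem_tsupport h1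
    have h3 : fderiv ℝ χ z = 0 := by
      by_contra h
      exact h1 (support_fderiv_subset ℝ h)
    rw [hW]
    simp only [dx, dy, h2, h3]
    simp
  have hWi : Integrable W := by
    refine hWc.integrable_of_hasCompactSupport ?_
    refine HasCompactSupport.intro (isCompact_closedBall (0 : ℂ) 16) fun z hz => hWs z ?_
    exact fun h => hz (ball_subset_closedBall h)
  have hχ2c : Continuous (fun z => χ z ^ 2) := hχ.continuous.pow 2
  have hχ2i : Integrable (fun z => χ z ^ 2) := by
    refine hχ2c.integrable_of_hasCompactSupport ?_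
    refine HasCompactSupport.intro (isCompact_closedBall (0 : ℂ) 16) fun z hz => ?_
    have h1 : z ∉ tsupport χ := fun h => hz (ball_subset_closedBall (hχs16 h))
    rw [image_eq_zero_of_notMem_tsupport h1]
    norm_num
  set B : ℝ := ∫ z, W z with hB
  set V : ℝ := ∫ z, χ z ^ 2 with hV
  have hB0 : 0 ≤ B := integral_nonneg hW0
  have hV0 : 0 ≤ V := integral_nonneg fun z => sq_nonneg _
  refine ⟨(V + B + 1) * Real.exp (8 * C₁ / 3), ?_, ?_⟩
  · have h1 : 1 ≤ Real.exp (8 * C₁ / 3) := Real.one_le_exp (by positivity)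
    nlinarith
  intro q u τ S hτ hsol hS y hy
  have hu : ∀ z ∈ ball (0 : ℂ) 16, ContDiffAt ℝ ∞ u z := fun z hz =>
    hsol.sm z (ball_subset_closedBall hz)
  have hS0 : 0 ≤ S := (abs_nonneg _).trans (hS 0 (by simp))
  have huS : ∀ z ∈ ball (0 : ℂ) 16, u z ^ 2 ≤ S ^ 2 := fun z hz => by
    rw [← sq_abs]
    exact pow_le_pow_left₀ (abs_nonneg _) (hS z hz) 2
  have hSτ : 0 < S ^ 2 + τ := by positivity
  -- Caccioppoli
  have hcac : ∫ z, χ z ^ 2 * (dx u z ^ 2 + dy u z ^ 2) ≤ S ^ 2 * B := by
    have h1 := ty2 0 1 16 (fun _ => 0) q u χ (by norm_num) contDiff_const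
      (fun z _ => by simp [Pool.Agent.Q73.NL.dx, Pool.Agent.Q73.NL.dy]) hχ hχc hχs16
      (fun z hz => ⟨hu z hz, by
        rw [abs_of_nonneg (hsol.q0 z (ball_subset_closedBall hz))]
        simpa using hsol.q1 z (ball_subset_closedBall hz),
        hsol.eq z (ball_subset_closedBall hz)⟩)
    simp only [mul_zero, Real.exp_zero, one_mul] at h1
    refine h1.trans ?_
    rw [hB, ← integral_const_mul]
    have hm : ∀ z, (8 * (dx χ z ^ 2 + dy χ z ^ 2) + (8 * 0 ^ 2 + 2 * 1 ^ 2) * χ z ^ 2) * u z ^ 2 ≤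
        S ^ 2 * W z := by
      intro z
      have e : (8 * (dx χ z ^ 2 + dy χ z ^ 2) + (8 * 0 ^ 2 + 2 * 1 ^ 2) * χ z ^ 2) = W z := by
        rw [hW]; ring
      rw [e]
      by_cases hz : z ∈ ball (0 : ℂ) 16
      · have := huS z hz
        nlinarith [hW0 z]
      · rw [hWs z hz]; simp
    refine integral_mono_of_nonneg (Eventually.of_forall fun z => ?_) (hWi.const_mul _)
      (Eventually.of_forall hm)
    show (0 : ℝ) ≤ (8 * (dx χ z ^ 2 + dy χ z ^ 2) + (8 * 0 ^ 2 + 2 * 1 ^ 2) * χ z ^ 2) * u z ^ 2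
    positivity
  -- the mean of `P`
  have hPc : ∀ z ∈ ball (0 : ℂ) 16, ContDiffAt ℝ ∞ (P u τ) z := by
    intro z hz
    unfold P
    exact ((((hu z hz).pow 2).add ((cd_dx (hu z hz)).pow 2)).add ((cd_dy (hu z hz)).pow 2)).add
      contDiffAt_const
  have hyn : ‖y‖ < 10 := by simpa using hy
  have hchiP : Integrable (fun z => chi 4 (z - y) * P u τ z) :=
    chi_int_loc (P u τ) 14 15 4 y (by norm_num) (by norm_num) (by norm_num) (by linarith)
      fun z hz => (hPc z (ball_subset_ball (by norm_num) hz)).continuousAt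
  have hG : Integrable (fun z => χ z ^ 2 * (dx u z ^ 2 + dy u z ^ 2)) := by
    have h1 : Integrable (fun z => χ z * (χ z * (dx u z ^ 2 + dy u z ^ 2))) := by
      refine ta2_int hχ.continuous hχc hχs16 fun z hz => ?_
      have h2 := (cd_dx (hu z hz)).continuousAt
      have h3 := (cd_dy (hu z hz)).continuousAt
      exact hχ.continuous.continuousAt.mul ((h2.pow 2).add (h3.pow 2))
    refine h1.congr (Eventually.of_forall fun z => ?_)
    simp only
    ring
  have hPle : ∫ z, chi 4 (z - y) * P u τ z ≤ (V + B) * (S ^ 2 + τ) := by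
    have h1 : ∀ z, chi 4 (z - y) * P u τ z ≤
        (S ^ 2 + τ) * χ z ^ 2 + χ z ^ 2 * (dx u z ^ 2 + dy u z ^ 2) := by
      intro z
      have hP0 : 0 ≤ P u τ z := hτ.le.trans (P_ge u τ z)
      by_cases hz : ‖z - y‖ < 4
      · have hz14 : ‖z‖ < 14 := by
          have e : z = (z - y) + y := by ring
          rw [e]
          refine (norm_add_le _ _).trans_lt ?_
          linarith
        have hz1 : χ z = 1 := hχe z (by rw [mem_closedBall, dist_zero_right]; exact hz14.le)
        have hz16 : z ∈ ball (0 : ℂ) 16 := by rw [mem_ball, dist_zero_right]; linarith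
        have h2 : chi 4 (z - y) ≤ 1 := (chi_le 4 _).trans (by norm_num)
        have h3 := huS z hz16
        rw [hz1]
        calc chi 4 (z - y) * P u τ z ≤ 1 * P u τ z := mul_le_mul_of_nonneg_right h2 hP0
          _ ≤ _ := by unfold P; linarith
      · rw [chi_out 4 (by norm_num) _ (not_lt.1 hz), zero_mul]
        positivity
    calc ∫ z, chi 4 (z - y) * P u τ z
        ≤ ∫ z, ((S ^ 2 + τ) * χ z ^ 2 + χ z ^ 2 * (dx u z ^ 2 + dy u z ^ 2)) :=
          integral_mono hchiP ((hχ2i.const_mul _).add hG) h1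
      _ = (S ^ 2 + τ) * V + ∫ z, χ z ^ 2 * (dx u z ^ 2 + dy u z ^ 2) := by
          rw [integral_add (hχ2i.const_mul _) hG, integral_const_mul]
      _ ≤ (S ^ 2 + τ) * V + S ^ 2 * B := by linarith
      _ ≤ (V + B) * (S ^ 2 + τ) := by nlinarith
  -- the mean of `v`
  have hmean := (meanJ (vv u τ) 14 15 4 C₁ y (by norm_num) (by norm_num) (by norm_num) (by linarith)
    (fun z hz => (hdi q u τ hτ hsol z (ball_subset_ball (by norm_num) hz)).1)
    (fun z hz => (hdi q u τ hτ hsol z (ball_subset_ball (by norm_num) hz)).2))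
  set c : ℝ := (V + B + 1) * (S ^ 2 + τ) with hc
  have hc0 : 0 < c := by positivity
  have hpw : ∀ z, vv u τ z ≤ (P u τ z / c - 1 + Real.log c) / 2 := by
    intro z
    have hP0 : 0 < P u τ z := hτ.trans_le (P_ge u τ z)
    have h1 := Real.log_le_sub_one_of_pos (div_pos hP0 hc0)
    rw [Real.log_div hP0.ne' hc0.ne'] at h1
    unfold vv
    linarith
  have hci := chi_int 4 (by norm_num)
  have hci' : Integrable (fun z => chi 4 (z - y)) := hci.1.comp_sub_right y
  have hcv : ∫ z, chi 4 (z - y) = 2 * Real.pi := by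
    rw [integral_sub_right_eq_self (fun z => chi 4 z) y]
    exact hci.2
  have hv2 : ∫ z, chi 4 (z - y) * vv u τ z ≤ Real.pi * Real.log c := by
    calc ∫ z, chi 4 (z - y) * vv u τ z
        ≤ ∫ z, ((1 / (2 * c)) * (chi 4 (z - y) * P u τ z) +
          chi 4 (z - y) * ((Real.log c - 1) / 2)) := by
          refine integral_mono hmean.1 ((hchiP.const_mul _).add (hci'.mul_const _)) fun z => ?_
          have h1 := mul_le_mul_of_nonneg_left (hpw z) (chi_nonneg 4 (z - y))
          refine h1.trans (le_of_eq ?_)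
          field_simp
          ring
      _ = (1 / (2 * c)) * (∫ z, chi 4 (z - y) * P u τ z) + 2 * Real.pi * ((Real.log c - 1) / 2) := by
          rw [integral_add (hchiP.const_mul _) (hci'.mul_const _), integral_const_mul,
            integral_mul_const, hcv]
      _ ≤ (1 / (2 * c)) * c + 2 * Real.pi * ((Real.log c - 1) / 2) := by
          have h1 : ∫ z, chi 4 (z - y) * P u τ z ≤ c := by
            refine hPle.trans ?_
            rw [hc]
            nlinarith
          have h2 : 0 ≤ 1 / (2 * c) := by positivity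
          have := mul_le_mul_of_nonneg_left h1 h2
          linarith
      _ ≤ Real.pi * Real.log c := by
          have h1 : (1 / (2 * c)) * c = 1 / 2 := by field_simp
          rw [h1]
          have := Real.pi_gt_three
          nlinarith
  have h1 := hmean.2
  have hpi := Real.pi_pos
  have hP0 : 0 < P u τ y := hτ.trans_le (P_ge u τ y)
  have h2 : Real.log (P u τ y) ≤ Real.log c + 8 * C₁ / 3 := by
    have h3 : 2 * Real.pi * vv u τ y = Real.pi * Real.log (P u τ y) := by
      unfold vv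
      ring
    have h4 : Real.pi * Real.log (P u τ y) ≤ Real.pi * (Real.log c + 8 * C₁ / 3) := by
      rw [← h3]
      refine (h1.trans (add_le_add_left hv2 _)).trans (le_of_eq ?_)
      ring
    exact le_of_mul_le_mul_left h4 hpi
  calc P u τ y = Real.exp (Real.log (P u τ y)) := (Real.exp_log hP0).symm
    _ ≤ Real.exp (Real.log c + 8 * C₁ / 3) := Real.exp_le_exp.2 h2
    _ = c * Real.exp (8 * C₁ / 3) := by rw [Real.exp_add, Real.exp_log hc0]
    _ = _ := by rw [hc]; ring

end Pool.Agent.D0H65.YN
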